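import Mathlib
import Pool.Agent.K7.H74.AF.Stm

set_option autoImplicit false

open MeasureTheory Finset

namespace Pool.Agent.K7.H55.AF

open Pool.Agent.K7.H74.AF

theorem snocCn (k t : ℕ) (ξ : Fin t → ℝ) (β : ℝ) (b : Fin t → ℕ) (J : ℕ) (η τ : ℝ) :
    cn k (Fin.snoc ξ β : Fin (t + 1) → ℝ) (Fin.snoc b J : Fin (t + 1) → ℕ) η τ =
      ∑ x ∈ blk J, cn k ξ b η (τ - ((x : ℝ) + β) ^ k) := by
  classical
  unfold cn
  rw [← Finset.card_sigma]
  symm
  refine Finset.card_bij (fun p _ => (Fin.snoc p.2 p.1 : Fin (t + 1) → ℕ)) ?_ ?_ ?_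
  · rintro ⟨x, y⟩ h
    simp only [Finset.mem_sigma, Finset.mem_filter, Box, Fintype.mem_piFinset] at h ⊢
    obtain ⟨hx, hy, hs⟩ := h
    refine ⟨?_, ?_⟩
    · intro i
      refine Fin.lastCases ?_ (fun j => ?_) i
      · simpa using hx
      · simpa using hy j
    · rw [Fin.sum_univ_castSucc]
      simp only [Fin.snoc_castSucc, Fin.snoc_last]
      convert hs using 2
      ring
  · rintro ⟨x, y⟩ h ⟨x', y'⟩ h' heq
    have h1 : x = x' := by
      have := congrFun heq (Fin.last t)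
      simpa using this
    have h2 : y = y' := by
      funext i
      have := congrFun heq (Fin.castSucc i)
      simpa using this
    subst h1; subst h2; rfl
  · intro z hz
    simp only [Finset.mem_filter, Box, Fintype.mem_piFinset] at hz
    obtain ⟨hz, hs⟩ := hz
    refine ⟨⟨z (Fin.last t), fun i => z (Fin.castSucc i)⟩, ?_, ?_⟩
    · simp only [Finset.mem_sigma, Finset.mem_filter, Box, Fintype.mem_piFinset]
      refine ⟨by simpa using hz (Fin.last t), fun i => by simpa using hz (Fin.castSucc i), ?_⟩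
      rw [Fin.sum_univ_castSucc] at hs
      simp only [Fin.snoc_castSucc, Fin.snoc_last] at hs
      convert hs using 2
      ring
    · funext i
      refine Fin.lastCases ?_ (fun j => ?_) i
      · simp
      · simp

theorem card_blk_le (a : ℕ) : (blk a).card ≤ 3 ^ a := by
  unfold blk
  rw [Nat.card_Ico]
  exact Nat.sub_le _ _

theorem card_Box_le {t : ℕ} (b : Fin t → ℕ) : (Box b).card ≤ (3 ^ mx b) ^ t := by
  unfold Box
  rw [Fintype.card_piFinset]
  calc ∏ i, (blk (b i)).card ≤ ∏ _i : Fin t, 3 ^ mx b := by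
        refine Finset.prod_le_prod' fun i _ => ?_
        refine (card_blk_le _).trans (Nat.pow_le_pow_right (by norm_num) ?_)
        exact Finset.le_sup (f := b) (Finset.mem_univ i)
    _ = (3 ^ mx b) ^ t := by simp

theorem cn_le (k t : ℕ) (ξ : Fin t → ℝ) (b : Fin t → ℕ) (η τ : ℝ) :
    (cn k ξ b η τ : ℝ) ≤ ((3 : ℝ) ^ mx b) ^ t := by
  classical
  have h : cn k ξ b η τ ≤ (3 ^ mx b) ^ t := (Finset.card_filter_le _ _).trans (card_Box_le b)
  exact_mod_cast h

theorem cn_mono (k t : ℕ) (ξ : Fin t → ℝ) (b : Fin t → ℕ) (η η' τ : ℝ) (h : η ≤ η') :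
    cn k ξ b η τ ≤ cn k ξ b η' τ := by
  classical
  unfold cn
  exact Finset.card_le_card (Finset.monotone_filter_right _ fun x _ hx => hx.trans h)

theorem vl_nonneg (k t : ℕ) (b : Fin t → ℕ) (η τ : ℝ) : 0 ≤ vl k b η τ := ENNReal.toReal_nonneg

theorem Lv_vol (k t : ℕ) (ξ : Fin t → ℝ) (b : Fin t → ℕ) (l : ℕ) :
    volume (Lv k ξ b l) ≤ ENNReal.ofReal (2 * ((3 : ℝ) ^ mx b) ^ t / 2 ^ l) := by
  classical
  set S : (Fin t → ℕ) → ℝ := fun x => ∑ i, ((x i : ℝ) + ξ i) ^ k with hS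
  set f : ℝ → ENNReal := fun τ => ∑ x ∈ Box b, (Set.Icc (S x - 1) (S x + 1)).indicator (fun _ => (1 : ENNReal)) τ with hf
  have hfm : Measurable f := by
    refine Finset.measurable_sum _ fun x _ => ?_
    exact measurable_const.indicator measurableSet_Icc
  have hcn : ∀ τ, f τ = (cn k ξ b 1 τ : ENNReal) := by
    intro τ
    simp only [hf, cn]
    rw [Finset.card_filter]
    push_cast
    refine Finset.sum_congr rfl fun x _ => ?_
    rw [Set.indicator_apply]
    have : τ ∈ Set.Icc (S x - 1) (S x + 1) ↔ |∑ i, ((x i : ℝ) + ξ i) ^ k - τ| ≤ 1 := by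
      rw [abs_le, Set.mem_Icc]
      simp only [hS]
      constructor
      · rintro ⟨h1, h2⟩
        constructor <;> linarith
      · rintro ⟨h1, h2⟩
        constructor <;> linarith
    by_cases h : τ ∈ Set.Icc (S x - 1) (S x + 1)
    · rw [if_pos h, if_pos (this.1 h)]
    · rw [if_neg h, if_neg (fun h' => h (this.2 h'))]
  have hint : ∫⁻ τ, f τ = 2 * ((Box b).card : ENNReal) := by
    simp only [hf]
    rw [lintegral_finsetSum _ (fun x _ => measurable_const.indicator measurableSet_Icc)]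
    have : ∀ x ∈ Box b, ∫⁻ τ, (Set.Icc (S x - 1) (S x + 1)).indicator (fun _ => (1 : ENNReal)) τ = 2 := by
      intro x _
      rw [lintegral_indicator measurableSet_Icc]
      simp only [lintegral_const, one_mul, Measure.restrict_apply MeasurableSet.univ, Set.univ_inter, Real.volume_Icc]
      norm_num
    rw [Finset.sum_congr rfl this]
    simp [mul_comm]
  have hsub : Lv k ξ b l ⊆ {τ | (2 : ENNReal) ^ l ≤ f τ} := by
    intro τ hτ
    simp only [Lv, Set.mem_ofPred_eq] at hτ ⊢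
    rw [hcn τ]
    have : 2 ^ l ≤ cn k ξ b 1 τ := by exact_mod_cast hτ
    exact_mod_cast this
  have hmk : (2 : ENNReal) ^ l * volume {τ | (2 : ENNReal) ^ l ≤ f τ} ≤ ∫⁻ τ, f τ :=
    mul_meas_ge_le_lintegral hfm _
  have h2 : (2 : ENNReal) ^ l ≠ 0 := by positivity
  have h2' : (2 : ENNReal) ^ l ≠ ⊤ := ENNReal.pow_ne_top (by norm_num)
  have hmain : volume (Lv k ξ b l) ≤ (2 * ((Box b).card : ENNReal)) / 2 ^ l := by
    rw [ENNReal.le_div_iff_mul_le (Or.inl h2) (Or.inl h2')]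
    rw [mul_comm]
    calc (2 : ENNReal) ^ l * volume (Lv k ξ b l) ≤ 2 ^ l * volume {τ | (2 : ENNReal) ^ l ≤ f τ} := by gcongr
      _ ≤ ∫⁻ τ, f τ := hmk
      _ = _ := hint
  refine hmain.trans ?_
  have hcard : ((Box b).card : ℝ) ≤ ((3 : ℝ) ^ mx b) ^ t := by
    exact_mod_cast card_Box_le b
  calc (2 * ((Box b).card : ENNReal)) / 2 ^ l = ENNReal.ofReal (2 * ((Box b).card : ℝ) / 2 ^ l) := by
        rw [ENNReal.ofReal_div_of_pos (by positivity), ENNReal.ofReal_mul (by norm_num),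
          ENNReal.ofReal_pow (by norm_num)]
        simp
    _ ≤ _ := by
        refine ENNReal.ofReal_le_ofReal ?_
        gcongr

theorem Ex_sub (k t : ℕ) (ξ : Fin t → ℝ) (b : Fin t → ℕ) (η : ℝ) (l : ℕ) (h : η ≤ 1) :
    Ex k ξ b η l ⊆ Lv k ξ b l := by
  intro τ hτ
  simp only [Ex, Lv, Set.mem_ofPred_eq] at hτ ⊢
  have h1 := vl_nonneg k t b η τ
  have h2 : (cn k ξ b η τ : ℝ) ≤ cn k ξ b 1 τ := by exact_mod_cast cn_mono k t ξ b η 1 τ h
  linarith

theorem split : StSplit :=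
  ⟨snocCn, cn_le, cn_mono, vl_nonneg, Lv_vol, Ex_sub⟩

end Pool.Agent.K7.H55.AF
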